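import Mathlib

set_option autoImplicit false

/-! One step of the construction of an unbounded increasing sequence of functions that is
Rothberger: a generic upper bound of countably many functions. -/

namespace Pool.Agent.W642.SP

open Filter Set

/-- Sequences of natural numbers with gaps at least two. -/
def Gap (v : ℕ → ℕ) : Prop := ∀ n, v n + 2 ≤ v (n + 1)

/-- The list `l` is an initial segment of `v`. -/
def Pre (l : List ℕ) (v : ℕ → ℕ) : Prop := ∀ k < l.length, l.getD k 0 = v k

/-- change the first `M` values of `f` to those of the list `r`. -/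
def modl (r : List ℕ) (M : ℕ) (f : ℕ → ℕ) (n : ℕ) : ℕ := if n < M then r.getD n 0 else f n

theorem Gap.strictMono {v : ℕ → ℕ} (h : Gap v) : StrictMono v :=
  strictMono_nat_of_lt_succ fun n => by have := h n; omega

theorem eventually_eq_modl {u v : ℕ → ℕ} (h : v =ᶠ[atTop] u) :
    ∃ (r : List ℕ) (M : ℕ), v = modl r M u := by
  obtain ⟨M, hM⟩ := eventually_atTop.1 h
  refine ⟨(List.range M).map v, M, ?_⟩
  funext n
  unfold modl
  split_ifs with hn
  · rw [List.getD_eq_getElem _ _ (by simpa using hn)]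
    simp
  · exact hM n (not_lt.1 hn)

theorem modl_eventually (r : List ℕ) (M : ℕ) (f : ℕ → ℕ) : modl r M f =ᶠ[atTop] f := by
  filter_upwards [eventually_ge_atTop M] with n hn
  simp [modl, not_lt.2 hn]

section

variable {I : Type} [LinearOrder I] (y : I → ℕ → ℕ)

/-- Conditions: a function that is almost equal to some `y i`, the length of the part that is
fixed, and the finite set of indices that have to be dominated from there on. -/
structure Cond where
  f : ℕ → ℕ
  N : ℕ
  F : Finset I
  i : I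
  gap : Gap f
  eq : f =ᶠ[atTop] y i
  dom : ∀ k ∈ F, ∀ n, N ≤ n → y k n ≤ f n

variable {y}

instance : Preorder (Cond y) where
  le p q := p.N ≤ q.N ∧ (∀ n < p.N, q.f n = p.f n) ∧ p.F ⊆ q.F ∧
    ∀ k ∈ p.F, ∀ n, p.N ≤ n → n < q.N → y k n ≤ q.f n
  le_refl p := ⟨le_rfl, fun _ _ => rfl, Finset.Subset.refl _, fun _ _ n h1 h2 => by omega⟩
  le_trans p q r h h' := by
    refine ⟨h.1.trans h'.1, fun n hn => ?_, h.2.2.1.trans h'.2.2.1, fun k hk n h1 h2 => ?_⟩
    · rw [h'.2.1 n (lt_of_lt_of_le hn h.1), h.2.1 n hn]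
    · rcases lt_or_ge n q.N with h3 | h3
      · rw [h'.2.1 n h3]
        exact h.2.2.2 k hk n h1 h3
      · exact h'.2.2.2 k (h.2.2.1 hk) n h3 h2

theorem Cond.le_def {p q : Cond y} : p ≤ q ↔ p.N ≤ q.N ∧ (∀ n < p.N, q.f n = p.f n) ∧ p.F ⊆ q.F ∧
    ∀ k ∈ p.F, ∀ n, p.N ≤ n → n < q.N → y k n ≤ q.f n := Iff.rfl

/-- lengthen the fixed part -/
def Cond.ext (p : Cond y) (N : ℕ) (hN : p.N ≤ N) : Cond y :=
  { p with N := N, dom := fun k hk n hn => p.dom k hk n (hN.trans hn) }

theorem Cond.le_ext (p : Cond y) (N : ℕ) (hN : p.N ≤ N) : p ≤ p.ext N hN :=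
  ⟨hN, fun _ _ => rfl, Finset.Subset.refl _, fun k hk n h1 _ => p.dom k hk n h1⟩

variable (hgap : ∀ i, Gap (y i)) (hfast : ∀ i (c : ℕ), ∀ᶠ n in atTop, c + 2 * n ≤ y i n)
  (hmono : ∀ i j, i ≤ j → ∀ᶠ n in atTop, y i n ≤ y j n)

include hgap hmono in
/-- promise to dominate `y k` -/
theorem Cond.exists_promise (p : Cond y) (k : I) : ∃ q : Cond y, p ≤ q ∧ k ∈ q.F ∧ k ≤ q.i := by
  classical
  rcases le_total k p.i with h | h
  · obtain ⟨M, hM⟩ := eventually_atTop.1 ((hmono k p.i h).and p.eq)
    refine ⟨{ p with N := max p.N M, F := insert k p.F, dom := ?_ }, ?_, by simp, h⟩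
    · intro j hj n hn
      rcases Finset.mem_insert.1 hj with rfl | hj
      · have := hM n ((le_max_right _ _).trans hn)
        rw [this.2]
        exact this.1
      · exact p.dom j hj n ((le_max_left _ _).trans hn)
    · exact ⟨le_max_left _ _, fun _ _ => rfl, Finset.subset_insert _ _,
        fun j hj n h1 _ => p.dom j hj n h1⟩
  · obtain ⟨M, hM⟩ := eventually_atTop.1 ((hmono p.i k h).and p.eq)
    have hle : ∀ n, max p.N M ≤ n → p.f n ≤ y k n := by
      intro n hn
      have := hM n ((le_max_right _ _).trans hn)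
      rw [this.2]
      exact this.1
    refine ⟨{ f := fun n => if n < max p.N M then p.f n else y k n
              N := max p.N M
              F := insert k p.F
              i := k
              gap := ?_
              eq := ?_
              dom := ?_ }, ?_, by simp, le_rfl⟩
    · intro n
      by_cases h1 : n + 1 < max p.N M
      · simp only [h1, if_true, show n < max p.N M by omega]
        exact p.gap n
      · by_cases h2 : n < max p.N M
        · simp only [h1, h2, if_true, if_false]
          have h3 := p.gap n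
          have h4 := hle (n + 1) (by omega)
          omega
        · simp only [h1, h2, if_false]
          exact hgap k n
    · filter_upwards [eventually_ge_atTop (max p.N M)] with n hn
      simp [not_lt.2 hn]
    · intro j hj n hn
      simp only [not_lt.2 hn, if_false]
      rcases Finset.mem_insert.1 hj with rfl | hj
      · exact le_rfl
      · exact (p.dom j hj n ((le_max_left _ _).trans hn)).trans (hle n hn)
    · refine ⟨le_max_left _ _, fun n hn => ?_, Finset.subset_insert _ _, fun j hj n h1 h2 => ?_⟩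
      · simp only
        rw [if_pos (lt_of_lt_of_le hn (le_max_left _ _))]
      · have h3 : n < max p.N M := h2
        simp only
        rw [if_pos h3]
        exact p.dom j hj n h1

include hfast in
/-- make one value large -/
theorem Cond.exists_large (p : Cond y) (N : ℕ) (b : ℕ → ℕ) :
    ∃ q : Cond y, p ≤ q ∧ ∃ n, N ≤ n ∧ n < q.N ∧ b n < q.f n := by
  obtain ⟨m, hm1, hm2⟩ : ∃ m, N ≤ m ∧ p.N ≤ m := ⟨max N p.N, le_max_left _ _, le_max_right _ _⟩
  obtain ⟨M, hM⟩ := eventually_atTop.1 ((hfast p.i (b m + 1)).and p.eq)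
  refine ⟨{ f := fun n => if n < m then p.f n else max (p.f n) (b m + 1 + 2 * (n - m))
            N := m + 1
            F := p.F
            i := p.i
            gap := ?_
            eq := ?_
            dom := ?_ }, ?_, m, hm1, Nat.lt_succ_self m, ?_⟩
  · intro n
    have h3 := p.gap n
    by_cases h1 : n + 1 < m
    · simp only [h1, if_true, show n < m by omega]
      exact h3
    · by_cases h2 : n < m
      · simp only [h1, h2, if_true, if_false]
        exact h3.trans (le_max_left _ _)
      · simp only [h1, h2, if_false]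
        rcases le_total (b m + 1 + 2 * (n - m)) (p.f n) with h4 | h4
        · rw [max_eq_left h4]
          exact h3.trans (le_max_left _ _)
        · rw [max_eq_right h4]
          refine le_trans ?_ (le_max_right _ _)
          omega
  · filter_upwards [eventually_ge_atTop (max m M)] with n hn
    have h1 := hM n ((le_max_right _ _).trans hn)
    have h2 : ¬ n < m := not_lt.2 ((le_max_left _ _).trans hn)
    simp only [h2, if_false]
    rw [max_eq_left, h1.2]
    rw [h1.2]
    omega
  · intro k hk n hn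
    simp only [show ¬ n < m by omega, if_false]
    exact (p.dom k hk n (by omega)).trans (le_max_left _ _)
  · refine ⟨by simp only; omega, fun n hn => ?_, Finset.Subset.refl _, fun k hk n h1 h2 => ?_⟩
    · simp only
      rw [if_pos (by omega)]
    · simp only
      split_ifs with h3
      · exact p.dom k hk n h1
      · exact (p.dom k hk n h1).trans (le_max_left _ _)
  · simp only [lt_irrefl, if_false]
    refine lt_of_lt_of_le ?_ (le_max_right _ _)
    omega

include hgap hfast hmono in
theorem step [Countable I] [Nonempty I] (z : I → Set ℕ)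
    (hz : ∀ i j, i ≤ j → ∃ᶠ n in atTop, n ∈ z i ∧ y j n = y i n)
    {K : Type} [Countable K] (b : K → ℕ → ℕ)
    {J : Type} [Countable J] (s : J → ℕ → List ℕ)
    (hs : ∀ j i v, Gap v → v =ᶠ[atTop] y i → ∃ᶠ n in atTop, Pre (s j n) v) :
    ∃ u : ℕ → ℕ, Gap u ∧ (∀ i, ∀ᶠ n in atTop, y i n ≤ u n) ∧
      (∀ k, ∃ᶠ n in atTop, b k n < u n) ∧
      (∀ i, ∃ᶠ n in atTop, n ∈ z i ∧ u n = y i n) ∧
      ∀ j v, Gap v → v =ᶠ[atTop] u → ∃ᶠ n in atTop, Pre (s j n) v := by
  classical
  -- the cofinal sets
  have D1 : ∀ i : I, IsCofinal {p : Cond y | i ∈ p.F} := fun i p => by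
    obtain ⟨q, h1, h2, -⟩ := p.exists_promise hgap hmono i
    exact ⟨q, h2, h1⟩
  have D2 : ∀ kN : K × ℕ, IsCofinal {p : Cond y | ∃ n, kN.2 ≤ n ∧ n < p.N ∧ b kN.1 n < p.f n} :=
    fun kN p => by
      obtain ⟨q, h1, h2⟩ := p.exists_large hfast kN.2 (b kN.1)
      exact ⟨q, h2, h1⟩
  have D3 : ∀ iN : I × ℕ, IsCofinal {p : Cond y | ∃ n, iN.2 ≤ n ∧ n < p.N ∧ n ∈ z iN.1 ∧
      p.f n = y iN.1 n} := fun iN p => by
    obtain ⟨q, h1, -, h3⟩ := p.exists_promise hgap hmono iN.1
    obtain ⟨n, ⟨h4, h5⟩, h6, h7⟩ :=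
      ((hz iN.1 q.i h3).and_eventually (q.eq.and (eventually_ge_atTop (max iN.2 q.N)))).exists
    refine ⟨q.ext (n + 1) (by omega), ⟨n, by omega, Nat.lt_succ_self n, h4, ?_⟩,
      h1.trans (q.le_ext _ _)⟩
    change q.f n = _
    rw [h6, h5]
  have D4 : ∀ x : J × List ℕ × ℕ × ℕ, IsCofinal {p : Cond y | x.2.2.1 < p.N ∧
      (Gap (modl x.2.1 x.2.2.1 p.f) → ∃ n, x.2.2.2 ≤ n ∧ (s x.1 n).length ≤ p.N ∧
        Pre (s x.1 n) (modl x.2.1 x.2.2.1 p.f))} := fun ⟨j, r, M, N⟩ p => by
    by_cases hG : Gap (modl r M p.f)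
    · obtain ⟨n, h1, h2⟩ := ((hs j p.i (modl r M p.f) hG
        ((modl_eventually r M p.f).trans p.eq)).and_eventually (eventually_ge_atTop N)).exists
      refine ⟨p.ext (max p.N (max (M + 1) (s j n).length)) (le_max_left _ _), ⟨?_, fun _ => ?_⟩,
        p.le_ext _ _⟩
      · change M < max p.N (max (M + 1) (s j n).length)
        have : M < M + 1 := Nat.lt_succ_self M
        exact lt_of_lt_of_le this ((le_max_left _ _).trans (le_max_right _ _))
      · exact ⟨n, h2, (le_max_right _ _).trans (le_max_right _ _), h1⟩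
    · refine ⟨p.ext (max p.N (M + 1)) (le_max_left _ _), ⟨?_, fun h => absurd h hG⟩,
        p.le_ext _ _⟩
      exact lt_of_lt_of_le (Nat.lt_succ_self M) (le_max_right _ _)
  let Idx := I ⊕ (K × ℕ) ⊕ (I × ℕ) ⊕ (J × List ℕ × ℕ × ℕ)
  haveI : Encodable Idx := Encodable.ofCountable _
  let 𝒟 : Idx → Order.Cofinal (Cond y) := fun x => match x with
    | .inl i => ⟨_, D1 i⟩
    | .inr (.inl kN) => ⟨_, D2 kN⟩
    | .inr (.inr (.inl iN)) => ⟨_, D3 iN⟩
    | .inr (.inr (.inr x)) => ⟨_, D4 x⟩
  obtain ⟨i0⟩ := ‹Nonempty I›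
  let p0 : Cond y := ⟨y i0, 0, ∅, i0, hgap i0, EventuallyEq.refl _ _, by simp⟩
  let P : ℕ → Cond y := Order.sequenceOfCofinals p0 𝒟
  have hPm : Monotone P := Order.sequenceOfCofinals.monotone p0 𝒟
  have hmem : ∀ x : Idx, ∃ m, P m ∈ (𝒟 x).carrier := fun x =>
    ⟨_, Order.sequenceOfCofinals.encode_mem p0 𝒟 x⟩
  -- a cofinal set of conditions with long fixed part
  have hlong : ∀ N, ∃ m, N < (P m).N := by
    intro N
    by_cases hJ : Nonempty J
    · obtain ⟨j⟩ := hJ
      obtain ⟨m, hm⟩ := hmem (.inr (.inr (.inr (j, [], N, 0))))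
      exact ⟨m, hm.1⟩
    · obtain ⟨m, n, h1, h2, -⟩ := hmem (.inr (.inr (.inl (i0, N))))
      exact ⟨m, lt_of_le_of_lt h1 h2⟩
  choose mm hmm using hlong
  let u : ℕ → ℕ := fun n => (P (mm n)).f n
  have hu : ∀ m n, n < (P m).N → u n = (P m).f n := by
    intro m n hn
    change (P (mm n)).f n = (P m).f n
    rcases le_total (mm n) m with h | h
    · exact ((hPm h).2.1 n (hmm n)).symm
    · exact (hPm h).2.1 n hn
  refine ⟨u, ?_, ?_, ?_, ?_, ?_⟩
  · intro n
    rw [hu (mm (n + 1)) (n + 1) (hmm (n + 1)), hu (mm (n + 1)) n (by have := hmm (n + 1); omega)]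
    exact (P (mm (n + 1))).gap n
  · intro i
    obtain ⟨m, hm⟩ := hmem (.inl i)
    have hm' : i ∈ (P m).F := hm
    filter_upwards [eventually_ge_atTop (P m).N] with n hn
    rcases le_total m (mm n) with h | h
    · exact (hPm h).2.2.2 i hm' n hn (hmm n)
    · have h1 := (hPm h).1
      have h2 := hmm n
      omega
  · intro k
    rw [frequently_atTop]
    intro N
    obtain ⟨m, n, h1, h2, h3⟩ := hmem (.inr (.inl (k, N)))
    exact ⟨n, h1, by rw [hu m n h2]; exact h3⟩
  · intro i
    rw [frequently_atTop]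
    intro N
    obtain ⟨m, n, h1, h2, h3, h4⟩ := hmem (.inr (.inr (.inl (i, N))))
    exact ⟨n, h1, h3, by rw [hu m n h2]; exact h4⟩
  · intro j v hv hvu
    obtain ⟨r, M, rfl⟩ := eventually_eq_modl hvu
    rw [frequently_atTop]
    intro N
    obtain ⟨m, h1, h2⟩ := hmem (.inr (.inr (.inr (j, r, M, N))))
    simp only at h1 h2
    have hag : ∀ n < (P m).N, modl r M u n = modl r M (P m).f n := by
      intro n hn
      unfold modl
      split_ifs with h3
      · rfl
      · exact hu m n hn
    have hG : Gap (modl r M (P m).f) := by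
      intro n
      rcases lt_or_ge (n + 1) (P m).N with h3 | h3
      · rw [← hag n (by omega), ← hag (n + 1) h3]
        exact hv n
      · have h4 : ¬ n < M := by omega
        have h5 : ¬ n + 1 < M := by omega
        simp only [modl, h4, h5, if_false]
        exact (P m).gap n
    obtain ⟨n, h3, h4, h5⟩ := h2 hG
    refine ⟨n, h3, fun k hk => ?_⟩
    rw [h5 k hk, hag k (by omega)]

end

end Pool.Agent.W642.SP
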