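import Mathlib
import Pool.Agent.W642.SP.Step

set_option autoImplicit false

/-! Under CH: an unbounded increasing sequence of functions whose finite modifications form a
Rothberger set. -/

namespace Pool.Agent.W642.SP

open Filter Set Cardinal

/-- The finite modifications (with gaps) of the functions `y i`. -/
def Mod {κ : Type} (y : κ → ℕ → ℕ) : Set (ℕ → ℕ) := {v | Gap v ∧ ∃ i, v =ᶠ[atTop] y i}

theorem countable_mod {κ : Type} [Countable κ] (y : κ → ℕ → ℕ) : (Mod y).Countable := by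
  refine (countable_range fun x : κ × List ℕ × ℕ => modl x.2.1 x.2.2 (y x.1)).mono ?_
  rintro v ⟨-, i, hi⟩
  obtain ⟨r, M, h⟩ := eventually_eq_modl hi
  exact ⟨(i, r, M), h.symm⟩

theorem exists_sel {I : Type} [Countable I] [Nonempty I] (y : I → ℕ → ℕ) (hgap : ∀ i, Gap (y i))
    (G : ℕ → Set (List ℕ)) : ∃ s : ℕ → List ℕ,
      (∀ i w, Gap w → w =ᶠ[atTop] y i → ∃ᶠ n in atTop, Pre (s n) w) ∧
      ((∀ w ∈ Mod y, ∀ n, ∃ l ∈ G n, Pre l w) → ∀ n, s n ∈ G n) := by
  classical
  by_cases hp : ∀ w ∈ Mod y, ∀ n, ∃ l ∈ G n, Pre l w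
  · obtain ⟨i0⟩ := ‹Nonempty I›
    obtain ⟨f, hf⟩ := (countable_mod y).exists_eq_range ⟨y i0, hgap i0, i0, EventuallyEq.refl _ _⟩
    have hfm : ∀ k, f k ∈ Mod y := fun k => by rw [hf]; exact ⟨k, rfl⟩
    choose s hs1 hs2 using fun n : ℕ => hp (f n.unpair.1) (hfm _) n
    refine ⟨s, fun i w hw hwi => ?_, fun _ => hs1⟩
    have hw' : w ∈ Mod y := ⟨hw, i, hwi⟩
    rw [hf] at hw'
    obtain ⟨k, rfl⟩ := hw'
    rw [frequently_atTop]
    intro N
    refine ⟨Nat.pair k N, Nat.right_le_pair _ _, ?_⟩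
    have := hs2 (Nat.pair k N)
    rwa [Nat.unpair_pair] at this
  · exact ⟨fun _ => [], fun i w _ _ => Eventually.frequently (Eventually.of_forall fun n k hk => by
      simp at hk), fun h => absurd h hp⟩

/-- the first function -/
def e0 (n : ℕ) : ℕ := (n + 1) ^ 2

theorem gap_e0 : Gap e0 := fun n => by
  unfold e0
  have : (n + 1 + 1) ^ 2 = (n + 1) ^ 2 + (2 * n + 3) := by ring
  omega

theorem fast_e0 (c : ℕ) : ∀ᶠ n in atTop, c + 2 * n ≤ e0 n := by
  filter_upwards [eventually_ge_atTop c] with n hn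
  unfold e0
  have : (n + 1) ^ 2 = n ^ 2 + 1 + 2 * n := by ring
  have h2 : n ≤ n ^ 2 := Nat.le_self_pow (by norm_num) n
  omega

/-- the values of the recursion -/
abbrev V := (ℕ → ℕ) × (ℕ → List ℕ)

/-- the family of functions determined by the values of the recursion -/
def fam {ι : Type} (g : ι → V) : WithBot ι → ℕ → ℕ
  | ⊥ => e0
  | (a : ι) => (g a).1

/-- extend the family of infinite sets to the bottom element -/
def dfam {ι : Type} (d : ι → ℕ → ℕ) : WithBot ι → ℕ → ℕ
  | ⊥ => 0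
  | (a : ι) => d a

section

variable {ι : Type} [LinearOrder ι] (Z : (ℕ → ℕ) → Set ℕ) (G : ι → ℕ → Set (List ℕ))
  (b d : ι → ℕ → ℕ)

/-- what the value at `a` has to satisfy -/
structure Good (a : ι) (g : ι → V) (v : V) : Prop where
  gap : Gap v.1
  dom : ∀ i : WithBot ι, i < a → ∀ᶠ n in atTop, fam g i n ≤ v.1 n
  unb : ∃ᶠ n in atTop, b a n < v.1 n
  unb' : ∀ i : WithBot ι, i < a → ∃ᶠ n in atTop, fam g i n + 1 < v.1 n
  eqz : ∀ i : WithBot ι, i < a → ∃ᶠ n in atTop, n ∈ Z (dfam d i) ∧ v.1 n = fam g i n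
  old : ∀ c : ι, c < a → ∀ w, Gap w → w =ᶠ[atTop] v.1 → ∃ᶠ n in atTop, Pre ((g c).2 n) w
  self : ∀ w, Gap w → w =ᶠ[atTop] v.1 → ∃ᶠ n in atTop, Pre (v.2 n) w
  new : ∀ i : WithBot ι, i < a → ∀ w, Gap w → w =ᶠ[atTop] fam g i → ∃ᶠ n in atTop, Pre (v.2 n) w
  sel : (∀ w, Gap w → (∃ i : WithBot ι, i < a ∧ w =ᶠ[atTop] fam g i) →
    ∀ n, ∃ l ∈ G a n, Pre l w) → ∀ n, v.2 n ∈ G a n

variable {Z G b d}

theorem fam_congr {a : ι} {g g' : ι → V} (h : ∀ c < a, g c = g' c) (i : WithBot ι)
    (hi : i < a) : fam g i = fam g' i := by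
  induction i with
  | bot => rfl
  | coe c =>
    have : c < a := WithBot.coe_lt_coe.1 hi
    change (g c).1 = (g' c).1
    rw [h c this]

theorem Good.congr {a : ι} {g g' : ι → V} {v : V} (h : ∀ c < a, g c = g' c)
    (H : Good Z G b d a g v) : Good Z G b d a g' v where
  gap := H.gap
  dom i hi := by rw [← fam_congr h i hi]; exact H.dom i hi
  unb := H.unb
  unb' i hi := by rw [← fam_congr h i hi]; exact H.unb' i hi
  eqz i hi := by rw [← fam_congr h i hi]; exact H.eqz i hi
  old c hc := by rw [← h c hc]; exact H.old c hc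
  self := H.self
  new i hi := by rw [← fam_congr h i hi]; exact H.new i hi
  sel hp := H.sel fun w hw ⟨i, hi, hwi⟩ => hp w hw ⟨i, hi, by rw [← fam_congr h i hi]; exact hwi⟩

theorem exists_good (hZ : ∀ e, (Z e).Infinite) (a : ι) (hc : (Iio a).Countable) (g : ι → V)
    (hg : ∀ c < a, Good Z G b d c g (g c)) : ∃ v, Good Z G b d a g v := by
  classical
  let I := {i : WithBot ι // i < a}
  have : Countable (Iio a) := hc
  have : Countable I := by
    let φ : I → Option (Iio a) := fun i => match i with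
      | ⟨⊥, _⟩ => none
      | ⟨(c : ι), h⟩ => some ⟨c, WithBot.coe_lt_coe.1 h⟩
    refine Function.Injective.countable (f := φ) ?_
    rintro ⟨i, hi⟩ ⟨j, hj⟩ hij
    induction i with
    | bot =>
      induction j with
      | bot => rfl
      | coe e => simp [φ] at hij
    | coe c =>
      induction j with
      | bot => simp [φ] at hij
      | coe e =>
        simp only [φ, Option.some.injEq] at hij
        have h := congrArg Subtype.val hij
        simp only at h
        subst h
        rfl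
  have : Nonempty I := ⟨⟨⊥, WithBot.bot_lt_coe a⟩⟩
  let y : I → ℕ → ℕ := fun i => fam g i.1
  have hgap : ∀ i, Gap (y i) := by
    rintro ⟨i, hi⟩
    induction i with
    | bot => exact gap_e0
    | coe c => exact (hg c (WithBot.coe_lt_coe.1 hi)).gap
  have hfast : ∀ i (c : ℕ), ∀ᶠ n in atTop, c + 2 * n ≤ y i n := by
    rintro ⟨i, hi⟩ k
    induction i with
    | bot => exact fast_e0 k
    | coe c =>
      filter_upwards [fast_e0 k, (hg c (WithBot.coe_lt_coe.1 hi)).dom ⊥ (WithBot.bot_lt_coe c)]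
        with n h1 h2
      exact h1.trans h2
  have hmono : ∀ i j, i ≤ j → ∀ᶠ n in atTop, y i n ≤ y j n := by
    rintro ⟨i, hi⟩ ⟨j, hj⟩ hij
    rcases eq_or_lt_of_le (show i ≤ j from hij) with h | h
    · subst h
      exact Eventually.of_forall fun _ => le_rfl
    · induction j with
      | bot => exact absurd h not_lt_bot
      | coe e => exact (hg e (WithBot.coe_lt_coe.1 hj)).dom i h
  have hz : ∀ i j : I, i ≤ j → ∃ᶠ n in atTop, n ∈ Z (dfam d i.1) ∧ y j n = y i n := by
    rintro ⟨i, hi⟩ ⟨j, hj⟩ hij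
    rcases eq_or_lt_of_le (show i ≤ j from hij) with h | h
    · subst h
      have := Nat.frequently_atTop_iff_infinite.2 (hZ (dfam d i))
      exact this.mono fun n hn => ⟨hn, rfl⟩
    · induction j with
      | bot => exact absurd h not_lt_bot
      | coe e => exact (hg e (WithBot.coe_lt_coe.1 hj)).eqz i h
  obtain ⟨s, hs1, hs2⟩ := exists_sel y hgap (G a)
  let K := Option I
  let bb : K → ℕ → ℕ := fun k => match k with
    | none => b a
    | some i => fun n => y i n + 1
  let J := Option (Iio a)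
  let ss : J → ℕ → List ℕ := fun j => match j with
    | none => s
    | some c => (g c.1).2
  have hss : ∀ j i v, Gap v → v =ᶠ[atTop] y i → ∃ᶠ n in atTop, Pre (ss j n) v := by
    rintro j ⟨i, hi⟩ v hv hvi
    cases j with
    | none => exact hs1 ⟨i, hi⟩ v hv hvi
    | some c =>
      have hca : c.1 < a := c.2
      rcases lt_trichotomy i (c.1 : WithBot ι) with h | h | h
      · exact (hg c.1 hca).new i h v hv hvi
      · subst h
        exact (hg c.1 hca).self v hv hvi
      · induction i with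
        | bot => exact absurd h not_lt_bot
        | coe e => exact (hg e (WithBot.coe_lt_coe.1 hi)).old c.1 (WithBot.coe_lt_coe.1 h) v hv hvi
  obtain ⟨u, h1, h2, h3, h4, h5⟩ := step hgap hfast hmono (fun i => Z (dfam d i.1)) hz bb ss hss
  refine ⟨(u, s), ⟨h1, fun i hi => h2 ⟨i, hi⟩, h3 none, fun i hi => h3 (some ⟨i, hi⟩),
    fun i hi => h4 ⟨i, hi⟩, fun c hc => h5 (some ⟨c, hc⟩), h5 none,
    fun i hi w hw hwi => hs1 ⟨i, hi⟩ w hw hwi, fun hp => hs2 ?_⟩⟩
  rintro w ⟨hw, ⟨i, hi⟩, hwi⟩ n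
  exact hp w hw ⟨i, hi, hwi⟩ n

end

/-- **The sequence.** -/
theorem exists_seq (CH : (ℵ₁ : Cardinal.{0}) = 𝔠) (Z : (ℕ → ℕ) → Set ℕ) (hZ : ∀ e, (Z e).Infinite) :
    ∃ (κ : Type) (_ : LinearOrder κ) (y d : κ → ℕ → ℕ), (∀ i : κ, (Iio i).Countable) ∧
      (∀ i, Gap (y i)) ∧ (∀ i j, i ≤ j → ∀ᶠ n in atTop, y i n ≤ y j n) ∧
      (∀ i j, i < j → ∃ᶠ n in atTop, y i n + 1 < y j n) ∧
      (∀ b : ℕ → ℕ, ∃ i, ∃ᶠ n in atTop, b n < y i n) ∧ (∀ e : ℕ → ℕ, ∃ i, d i = e) ∧
      (∀ i j, i ≤ j → ∃ᶠ n in atTop, n ∈ Z (d i) ∧ y j n = y i n) ∧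
      ∀ G : ℕ → Set (List ℕ), (∀ v ∈ Mod y, ∀ n, ∃ l ∈ G n, Pre l v) →
        ∃ s : ℕ → List ℕ, (∀ n, s n ∈ G n) ∧ ∀ v ∈ Mod y, ∃ᶠ n in atTop, Pre (s n) v := by
  classical
  let ι : Type := (Cardinal.ord ℵ₁).ToType
  have hι : #ι = 𝔠 := by rw [← CH]; simp [ι]
  have hcount : ∀ a : ι, (Iio a).Countable := by
    intro a
    rw [← le_aleph0_iff_set_countable, ← Cardinal.lt_aleph_one_iff]
    have h := Cardinal.mk_Iio_lt a (by simp [ι])
    rwa [hι, ← CH] at h
  let T := (ℕ → Set (List ℕ)) × (ℕ → ℕ) × (ℕ → ℕ)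
  have hT : #T ≤ 𝔠 := by
    have h1 : #(ℕ → Set (List ℕ)) ≤ 𝔠 := by
      have h2 : #(Set (List ℕ)) = 𝔠 := by
        rw [Cardinal.mk_set, Cardinal.mk_eq_aleph0 (List ℕ), two_power_aleph0]
      rw [← Cardinal.power_def, h2, Cardinal.mk_nat, Cardinal.continuum_power_aleph0]
    have h3 : #(ℕ → ℕ) ≤ 𝔠 := by
      rw [← Cardinal.power_def, Cardinal.mk_nat, Cardinal.aleph0_power_aleph0]
    simp only [T, Cardinal.mk_prod, Cardinal.lift_id]
    calc #(ℕ → Set (List ℕ)) * (#(ℕ → ℕ) * #(ℕ → ℕ)) ≤ 𝔠 * (𝔠 * 𝔠) := by gcongr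
      _ = 𝔠 := by simp
  obtain ⟨e, he⟩ : ∃ e : ι → T, Function.Surjective e := by
    have hle : #T ≤ #ι := hT.trans hι.ge
    obtain ⟨f⟩ := hle
    haveI : Nonempty T := ⟨(fun _ => ∅, fun _ => 0, fun _ => 0)⟩
    exact ⟨Function.invFun f, Function.invFun_surjective f.injective⟩
  let G : ι → ℕ → Set (List ℕ) := fun a => (e a).1
  let b : ι → ℕ → ℕ := fun a => (e a).2.1
  let d : ι → ℕ → ℕ := fun a => (e a).2.2
  let wf : WellFounded (fun x y : ι => x < y) := wellFounded_lt
  let ext : (a : ι) → ((c : ι) → c < a → V) → ι → V := fun a f c => if h : c < a then f c h else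
    (fun _ => 0, fun _ => [])
  let F : (a : ι) → ((c : ι) → c < a → V) → V := fun a f =>
    if h : ∃ v, Good Z G b d a (ext a f) v then h.choose else (fun _ => 0, fun _ => [])
  let Y : ι → V := wf.fix F
  have hY : ∀ a, Y a = F a fun c _ => Y c := fun a => wf.fix_eq F a
  have hext : ∀ a, ∀ c < a, ext a (fun c _ => Y c) c = Y c := fun a c hc => by simp [ext, hc]
  have hgood : ∀ a, Good Z G b d a Y (Y a) := by
    intro a
    induction a using wf.induction with
    | _ a ih =>
      have h1 : ∃ v, Good Z G b d a (ext a fun c _ => Y c) v := by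
        obtain ⟨v, hv⟩ := exists_good hZ a (hcount a) Y ih
        exact ⟨v, hv.congr fun c hc => (hext a c hc).symm⟩
      have h2 := h1.choose_spec
      have h3 : Y a = h1.choose := by
        rw [hY a]
        exact dif_pos h1
      rw [h3]
      exact h2.congr (hext a)
  refine ⟨WithBot ι, inferInstance, fam Y, dfam d, ?_, ?_, ?_, ?_, ?_, ?_, ?_, ?_⟩
  · intro i
    refine ((countable_singleton (⊥ : WithBot ι)).union
      (((match i with
        | ⊥ => countable_empty
        | (a : ι) => hcount a : (match i with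
        | ⊥ => (∅ : Set ι)
        | (a : ι) => Iio a).Countable)).image ((↑) : ι → WithBot ι))).mono ?_
    intro j hj
    induction j with
    | bot => exact Or.inl rfl
    | coe c =>
      induction i with
      | bot => exact absurd (show (c : WithBot ι) < ⊥ from hj) not_lt_bot
      | coe a => exact Or.inr ⟨c, WithBot.coe_lt_coe.1 hj, rfl⟩
  · intro i
    induction i with
    | bot => exact gap_e0
    | coe c => exact (hgood c).gap
  · intro i j hij
    rcases eq_or_lt_of_le hij with h | h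
    · subst h
      exact Eventually.of_forall fun _ => le_rfl
    · induction j with
      | bot => exact absurd h not_lt_bot
      | coe e => exact (hgood e).dom i h
  · intro i j h
    induction j with
    | bot => exact absurd h not_lt_bot
    | coe e => exact (hgood e).unb' i h
  · intro b'
    obtain ⟨a, ha⟩ := he (fun _ => ∅, b', fun _ => 0)
    refine ⟨a, ?_⟩
    have := (hgood a).unb
    have hb : b a = b' := by simp only [b, ha]
    rw [hb] at this
    exact this
  · intro e'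
    obtain ⟨a, ha⟩ := he (fun _ => ∅, fun _ => 0, e')
    refine ⟨a, ?_⟩
    change d a = e'
    simp only [d, ha]
  · intro i j hij
    rcases eq_or_lt_of_le hij with h | h
    · subst h
      have := Nat.frequently_atTop_iff_infinite.2 (hZ (dfam d i))
      exact this.mono fun n hn => ⟨hn, rfl⟩
    · induction j with
      | bot => exact absurd h not_lt_bot
      | coe e => exact (hgood e).eqz i h
  · intro G' hG'
    obtain ⟨a, ha⟩ := he (G', fun _ => 0, fun _ => 0)
    have hGa : G a = G' := by simp only [G, ha]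
    refine ⟨(Y a).2, ?_, ?_⟩
    · have := (hgood a).sel fun w hw ⟨i, _, hwi⟩ n => by
        rw [hGa]
        exact hG' w ⟨hw, i, hwi⟩ n
      rwa [hGa] at this
    · rintro v ⟨hv, i, hvi⟩
      rcases lt_trichotomy i (a : WithBot ι) with h | h | h
      · exact (hgood a).new i h v hv hvi
      · subst h
        exact (hgood a).self v hv hvi
      · induction i with
        | bot => exact absurd h not_lt_bot
        | coe e => exact (hgood e).old a (WithBot.coe_lt_coe.1 h) v hv hvi

end Pool.Agent.W642.SP
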