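import Mathlib
import Pool.Agent.W642.SP.Rec

set_option autoImplicit false

/-! From the combinatorial selection property to covers, and counting. -/

namespace Pool.Agent.W642.SP

open Filter Set Cardinal

theorem exists_pre_of_open {X : Set (ℕ → ℕ)} {U : Set X} (hU : IsOpen U) {v : X} (hv : v ∈ U) :
    ∃ l : List ℕ, Pre l v.1 ∧ ∀ w : X, Pre l w.1 → w ∈ U := by
  obtain ⟨O, hO, rfl⟩ := isOpen_induced_iff.1 hU
  obtain ⟨_, ⟨x, n, rfl⟩, h1, h2⟩ :=
    (PiNat.isTopologicalBasis_cylinders fun _ : ℕ => ℕ).exists_subset_of_mem_open hv hO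
  have hlen : ((List.range n).map v.1).length = n := by simp
  have hget : ∀ k < n, ((List.range n).map v.1).getD k 0 = v.1 k := by
    intro k hk
    rw [List.getD_eq_getElem _ _ (by simpa using hk)]
    simp
  refine ⟨(List.range n).map v.1, fun k hk => hget k (by rwa [hlen] at hk), fun w hw => h2 ?_⟩
  intro k hk
  rw [← hw k (by rwa [hlen]), hget k hk]
  exact h1 k hk

theorem select (X : Set (ℕ → ℕ))
    (R : ∀ G : ℕ → Set (List ℕ), (∀ v ∈ X, ∀ n, ∃ l ∈ G n, Pre l v) →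
        ∃ s : ℕ → List ℕ, (∀ n, s n ∈ G n) ∧ ∀ v ∈ X, ∃ᶠ n in atTop, Pre (s n) v)
    (𝒰 : ℕ → Set (Set X)) (h1 : ∀ n, ∀ U ∈ 𝒰 n, IsOpen U) (h2 : ∀ n, ⋃₀ 𝒰 n = Set.univ) :
    ∃ U : ℕ → Set X, (∀ n, U n ∈ 𝒰 n) ∧ ∀ x : X, ∃ᶠ n in atTop, x ∈ U n := by
  obtain ⟨s, hs1, hs2⟩ := R (fun n => {l | ∃ U ∈ 𝒰 n, ∀ w : X, Pre l w.1 → w ∈ U}) (by
    intro v hv n
    obtain ⟨U, hU, hvU⟩ : (⟨v, hv⟩ : X) ∈ ⋃₀ 𝒰 n := by rw [h2 n]; trivial
    obtain ⟨l, hl1, hl2⟩ := exists_pre_of_open (h1 n U hU) hvU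
    exact ⟨l, ⟨U, hU, hl2⟩, hl1⟩)
  choose U hU1 hU2 using hs1
  exact ⟨U, hU1, fun x => (hs2 x.1 x.2).mono fun n hn => hU2 n x hn⟩

/-- countably many functions are dominated by a strictly increasing one -/
theorem exists_bound {B : Set (ℕ → ℕ)} (hB : B.Countable) :
    ∃ g : ℕ → ℕ, StrictMono g ∧ ∀ b ∈ B, ∀ᶠ n in atTop, b n ≤ g n := by
  rcases B.eq_empty_or_nonempty with rfl | hne
  · exact ⟨id, strictMono_id, by simp⟩
  · obtain ⟨f, rfl⟩ := hB.exists_eq_range hne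
    refine ⟨fun n => ∑ k ∈ Finset.range (n + 1), ∑ m ∈ Finset.range (n + 1), (f k m + 1), ?_, ?_⟩
    · apply strictMono_nat_of_lt_succ
      intro n
      have h1 : ∑ k ∈ Finset.range (n + 1), ∑ m ∈ Finset.range (n + 1), (f k m + 1) ≤
          ∑ k ∈ Finset.range (n + 1), ∑ m ∈ Finset.range (n + 2), (f k m + 1) := by
        apply Finset.sum_le_sum
        intro k _
        apply Finset.sum_le_sum_of_subset
        exact Finset.range_mono (by omega)
      rw [Finset.sum_range_succ (fun k => ∑ m ∈ Finset.range (n + 1 + 1), (f k m + 1)) (n + 1)]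
      have h2 : 0 < ∑ m ∈ Finset.range (n + 1 + 1), (f (n + 1) m + 1) :=
        Finset.sum_pos (fun _ _ => Nat.succ_pos _) ⟨0, by simp⟩
      exact lt_of_le_of_lt h1 (Nat.lt_add_of_pos_right h2)
    · rintro _ ⟨k, rfl⟩
      filter_upwards [eventually_ge_atTop k] with n hn
      calc f k n ≤ ∑ m ∈ Finset.range (n + 1), (f k m + 1) :=
            (Nat.le_succ _).trans (Finset.single_le_sum (f := fun m => f k m + 1)
              (fun _ _ => Nat.zero_le _) (Finset.mem_range.2 (Nat.lt_succ_self n)))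
        _ ≤ _ := Finset.single_le_sum (f := fun k => ∑ m ∈ Finset.range (n + 1), (f k m + 1))
              (fun _ _ => Nat.zero_le _) (Finset.mem_range.2 (by omega))

/-- all but countably many members are above `y i` -/
theorem countable_not_above {κ : Type} [LinearOrder κ] {y : κ → ℕ → ℕ}
    (hmono : ∀ i j, i ≤ j → ∀ᶠ n in atTop, y i n ≤ y j n) (i : κ) (hi : (Iio i).Countable) :
    {x ∈ Mod y | ¬ ∀ᶠ n in atTop, y i n ≤ x n}.Countable := by
  have : Countable (Iio i) := hi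
  refine (countable_mod fun j : Iio i => y j).mono ?_
  rintro x ⟨⟨hx, j, hj⟩, hn⟩
  refine ⟨hx, ⟨j, ?_⟩, hj⟩
  by_contra hji
  apply hn
  filter_upwards [hmono i j (not_lt.1 hji), hj] with n h1 h2
  rw [h2]
  exact h1

end Pool.Agent.W642.SP
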